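import Pool.Agent.H442R2.FX.AsmY

/-!
The weighted level of distribution sum over smooth (and over factorable) squarefree moduli at every
level `θ < 5/9`, with the maximum over `y ≤ N`, for every fixed residue `a ≤ N` outside a set of at
most `C (log N)^B` exceptions.
-/

set_option autoImplicit false

namespace Pool.Agent.Results.MP_188a10_nt.SmoothModuliFiveNinths

open Finset

/-- `π(y; d, a)`: the number of primes `p ≤ y` with `p ≡ a (mod d)` -/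
noncomputable def primesAP (y : ℝ) (d a : ℕ) : ℕ :=
  ((Icc 1 ⌊y⌋₊).filter (fun p => p.Prime ∧ p ≡ a [MOD d])).card

/-- `li(y) = ∫_2^y dt / log t` -/
noncomputable def li (y : ℝ) : ℝ := ∫ t in (2 : ℝ)..y, 1 / Real.log t

/-- the maximum over real `y`, `2 ≤ y ≤ N`, of `|π(y; d, a) - li(y)/φ(d)|` -/
noncomputable def EMax (N d a : ℕ) : ℝ :=
  ⨆ y : Set.Icc (2 : ℝ) N, |(primesAP y d a : ℝ) - li y / (Nat.totient d : ℝ)|

/-- `ν(d)`: the number of distinct prime factors of `d` -/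
def nuD (d : ℕ) : ℕ := d.primeFactors.card

open Classical in
/-- the squarefree `d ≤ N^θ` all of whose prime factors are at most `N^η` -/
noncomputable def smooth (N : ℕ) (θ η : ℝ) : Finset ℕ :=
  (Icc 1 ⌊(N : ℝ) ^ θ⌋₊).filter
    (fun d : ℕ => Squarefree d ∧ ∀ p : ℕ, p.Prime → p ∣ d → (p : ℝ) ≤ (N : ℝ) ^ η)

open Classical in
/-- the squarefree `d ≤ N^θ` with a divisor `s`, `N^(2θ-1+δ) ≤ s ≤ N^(4-7θ-δ)` -/
noncomputable def factorable (N : ℕ) (θ δ : ℝ) : Finset ℕ :=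
  (Icc 1 ⌊(N : ℝ) ^ θ⌋₊).filter
    (fun d : ℕ => Squarefree d ∧ ∃ s : ℕ, s ∣ d ∧ (N : ℝ) ^ (2 * θ - 1 + δ) ≤ s ∧
      (s : ℝ) ≤ (N : ℝ) ^ (4 - 7 * θ - δ))

/-- **Level `5/9` for smooth and for factorable moduli, for all but `(log N)^B` residues.** -/
theorem result :
    (∀ θ : ℝ, θ < 5 / 9 → ∃ η : ℝ, 0 < η ∧ ∀ κ : ℝ, 1 ≤ κ → ∀ U : ℕ,
      ∃ (B : ℕ) (C : ℝ), 0 < C ∧ ∀ N : ℕ, 3 ≤ N →
      (((Icc 1 N).filter (fun a : ℕ => (N : ℝ) / Real.log N ^ U <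
        ∑ d ∈ (smooth N θ η).filter (fun d => Nat.Coprime a d),
          κ ^ nuD d * EMax N d a)).card : ℝ) ≤ C * Real.log N ^ B) ∧
    (∀ θ δ : ℝ, 1 / 2 ≤ θ → θ < 5 / 9 → 0 < δ → ∀ κ : ℝ, 1 ≤ κ → ∀ U : ℕ,
      ∃ (B : ℕ) (C : ℝ), 0 < C ∧ ∀ N : ℕ, 3 ≤ N →
      (((Icc 1 N).filter (fun a : ℕ => (N : ℝ) / Real.log N ^ U <
        ∑ d ∈ (factorable N θ δ).filter (fun d => Nat.Coprime a d),
          κ ^ nuD d * EMax N d a)).card : ℝ) ≤ C * Real.log N ^ B) := by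
  constructor
  · intro θ hθ
    exact Pool.Agent.H442R2.FX.smooth_weighted θ hθ
  · intro θ δ h1 h2 h3 κ hκ U
    obtain ⟨B, C, hC, h⟩ := Pool.Agent.H442R2.FX.fac_weighted θ δ h1 h2 h3 κ hκ U
    refine ⟨B, C, hC, ?_⟩
    intro N hN
    have hfac : factorable N θ δ = Pool.Agent.H442R2.FX.facs N θ δ ⌊(N : ℝ) ^ θ⌋₊ := by
      ext d
      unfold factorable Pool.Agent.H442R2.FX.facs Pool.Agent.H442R2.FX.FacD
      simp only [Finset.mem_filter]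
    rw [hfac]
    exact h N hN

end Pool.Agent.Results.MP_188a10_nt.SmoothModuliFiveNinths
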