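import Pool.Agent.H300R2.WEH.Fin

/-!
The weighted level of distribution sum at every level `α < 1`, with the maximum over `y ≤ N`, on
average over the residue `a` in an arbitrary interval of length `N^(1/3) (log N)^B`.
-/

set_option autoImplicit false

namespace Pool.Agent.Results.MP_188a10_nt.WeightedAlmostAll

open Finset
open Pool.Agent.H300R2.WEH

/-- `π(y; d, a)`: the number of primes `p ≤ y` with `p ≡ a (mod d)` -/
noncomputable def primesAP (y : ℝ) (d a : ℕ) : ℕ :=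
  ((Icc 1 ⌊y⌋₊).filter (fun p => p.Prime ∧ p ≡ a [MOD d])).card

/-- `li(y) = ∫_2^y dt / log t` -/
noncomputable def li (y : ℝ) : ℝ := ∫ t in (2 : ℝ)..y, 1 / Real.log t

/-- the maximum over real `y`, `2 ≤ y ≤ N`, of `|π(y; d, a) - li(y)/φ(d)|` -/
noncomputable def EMax (N d a : ℕ) : ℝ :=
  ⨆ y : Set.Icc (2 : ℝ) N, |(primesAP y d a : ℝ) - li y / (Nat.totient d : ℝ)|

/-- `ν(d)`: the number of distinct prime factors of `d` -/
def nuD (d : ℕ) : ℕ := d.primeFactors.card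

/-- **Weighted level of distribution for almost all residues in short intervals.** For all
`κ ≥ 1`, `α < 1` and `U` there are `B`, `C` such that for all `N ≥ 3` and all intervals
`(a0, a0 + A]` of positive integers with `a0 + A ≤ N / (log N)^B`:
(1) if `A ≥ N^(1/3) (log N)^B`, then `∑_{a0 < a ≤ a0 + A} ∑_{d ≤ N^α, (d,a)=1}
κ^ν(d) max_{2 ≤ y ≤ N} |π(y; d, a) - li(y)/φ(d)| ≤ C A N / (log N)^U`;
(2) if `N^(1/2) ≤ D ≤ N^α` and `A ≥ (N/D) (log N)^B`, the same holds with `d` restricted to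
`D < d ≤ 2D`. -/
theorem result (κ : ℝ) (hκ : 1 ≤ κ) (α : ℝ) (hα : α < 1) (U : ℕ) :
    ∃ (B : ℕ) (C : ℝ), ∀ N : ℕ, 3 ≤ N → ∀ A a0 : ℕ,
    ((a0 + A : ℕ) : ℝ) ≤ N / Real.log N ^ B →
    ((N : ℝ) ^ (1 / 3 : ℝ) * Real.log N ^ B ≤ A →
      ∑ a ∈ Ioc a0 (a0 + A), ∑ d ∈ (Icc 1 ⌊(N : ℝ) ^ α⌋₊).filter (fun d => a.Coprime d),
        κ ^ nuD d * EMax N d a ≤ C * (A * N / Real.log N ^ U)) ∧
    (∀ D : ℕ, (N : ℝ) ^ (1 / 2 : ℝ) ≤ D → (D : ℝ) ≤ (N : ℝ) ^ α →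
      N * Real.log N ^ B ≤ (A : ℝ) * D →
      ∑ a ∈ Ioc a0 (a0 + A), ∑ d ∈ (Ioc D (2 * D)).filter (fun d => a.Coprime d),
        κ ^ nuD d * EMax N d a ≤ C * (A * N / Real.log N ^ U)) :=
  weighted_of finalS κ hκ α hα U

end Pool.Agent.Results.MP_188a10_nt.WeightedAlmostAll
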