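import Pool.Agent.H300R2.WEH.FamB

/-!
The weighted level of distribution sum over all moduli `d ≤ N`, with the maximum over `y ≤ N`
and over all reduced residue classes outside a set of at most `d² (log N)^B / N` classes.
-/

set_option autoImplicit false

namespace Pool.Agent.Results.MP_188a10_nt.WeightedExceptional

open Finset
open Pool.Agent.H300R2.WEH

/-- `π(y; d, l)`: the number of primes `p ≤ y` in the class `l` modulo `d` -/
noncomputable def primesAP (y : ℝ) (d : ℕ) (l : ZMod d) : ℕ :=
  ((Icc 1 ⌊y⌋₊).filter (fun p : ℕ => p.Prime ∧ (p : ZMod d) = l)).card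

/-- `li(y) = ∫_2^y dt / log t` -/
noncomputable def li (y : ℝ) : ℝ := ∫ t in (2 : ℝ)..y, 1 / Real.log t

/-- the maximum over real `y`, `2 ≤ y ≤ N`, of `|π(y; d, l) - li(y)/φ(d)|` -/
noncomputable def EMax (N d : ℕ) (l : (ZMod d)ˣ) : ℝ :=
  ⨆ y : Set.Icc (2 : ℝ) N, |(primesAP y d (l : ZMod d) : ℝ) - li y / (Nat.totient d : ℝ)|

/-- the maximum of `EMax N d l` over the reduced classes `l` outside `X` -/
noncomputable def EOff (N d : ℕ) (X : Finset (ZMod d)ˣ) : ℝ :=
  ⨆ l : {l : (ZMod d)ˣ // l ∉ X}, EMax N d l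

/-- `ν(d)`: the number of distinct prime factors of `d` -/
def nuD (d : ℕ) : ℕ := d.primeFactors.card

theorem EMax_eq (N d : ℕ) [NeZero d] (l : (ZMod d)ˣ) :
    EMax N d l = errMax N d (l : ZMod d).val := by
  unfold EMax errMax err
  congr 1
  ext y
  have h : (primesAP (y : ℝ) d (l : ZMod d)) = piR (y : ℝ) d (l : ZMod d).val := by
    unfold primesAP piR
    congr 1
    apply filter_congr
    intro p _
    rw [← ZMod.natCast_eq_natCast_iff, ZMod.natCast_zmod_val]
  rw [h]
  rfl

theorem log_ge_one {x : ℕ} (hx : 3 ≤ x) : 1 ≤ Real.log x := by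
  have h3 : (3 : ℝ) ≤ x := by exact_mod_cast hx
  rw [Real.le_log_iff_exp_le (by linarith)]
  have := Real.exp_one_lt_d9
  linarith

theorem fam_of (A : ℝ) (hA : 0 ≤ A) (L : (q : ℕ) → Finset (ZMod q)ˣ)
    (hL : ∀ q, ((L q).card : ℝ) ≤ A) :
    H343E.Fam A (fun q => if q = 0 then ∅ else (L q).image (fun a : (ZMod q)ˣ => (a : ZMod q).val)) := by
  constructor
  · intro q a ha
    rcases Nat.eq_zero_or_pos q with hq | hq
    · subst hq; simp at ha
    · rw [if_neg (by omega), mem_image] at ha
      obtain ⟨u, _, rfl⟩ := ha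
      have : NeZero q := ⟨by omega⟩
      exact ⟨ZMod.val_lt _, ZMod.val_coe_unit_coprime u⟩
  · intro q
    beta_reduce
    split_ifs with h
    · simpa using hA
    · exact le_trans (by exact_mod_cast card_image_le) (hL q)

theorem nuD_le (d N : ℕ) (hd : d ≤ N) : d.primeFactors.card ≤ N := by
  calc d.primeFactors.card ≤ (Icc 1 d).card := card_le_card (by
        intro p hp
        rw [mem_Icc]
        exact ⟨(Nat.prime_of_mem_primeFactors hp).one_le, Nat.le_of_mem_primeFactors hp⟩)
    _ = d := by simp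
    _ ≤ N := hd

/-- **Weighted level of distribution with exceptional classes.** -/
theorem result (κ : ℝ) (hκ : 1 ≤ κ) (U : ℕ) : ∃ (B : ℕ) (C : ℝ), ∀ N : ℕ, 3 ≤ N →
    (∃ X : (d : ℕ) → Finset (ZMod d)ˣ,
      (∀ d, 1 ≤ d → ((X d).card : ℝ) ≤ (d : ℝ) ^ 2 * Real.log N ^ B / N) ∧
      ∑ d ∈ Icc 1 N, κ ^ nuD d * EOff N d (X d) ≤ C * (N / Real.log N ^ U)) ∧
    (∀ A : ℝ, 1 ≤ A → ∀ D : ℕ, (D : ℝ) ≤ N / Real.log N ^ B →
      (D : ℝ) ^ 2 ≤ A * N / Real.log N ^ B →
      ∀ L : (d : ℕ) → Finset (ZMod d)ˣ, (∀ d, ((L d).card : ℝ) ≤ A) →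
      ∑ d ∈ Icc 1 D, κ ^ nuD d * ∑ l ∈ L d, EMax N d l ≤ C * (A * N / Real.log N ^ U)) := by
  have hκ2 : (1 : ℝ) ≤ κ ^ 2 := one_le_pow₀ hκ
  have hκ0 : 0 ≤ κ := by linarith
  obtain ⟨c, hc⟩ := sum_log (κ ^ 2) hκ2
  obtain ⟨W, hW⟩ := upWeight κ c U
  obtain ⟨B1, x1, h1⟩ := famMax W
  obtain ⟨B2, x2, h2⟩ := exceptional_gen errMax errMax_nonneg famMax W
  obtain ⟨B, hB⟩ : ∃ B : ℕ, B = max B1 B2 := ⟨_, rfl⟩
  obtain ⟨x0, hx0⟩ : ∃ x0 : ℕ, x0 = max (max x1 x2) 8 := ⟨_, rfl⟩
  obtain ⟨C, hC⟩ : ∃ C : ℝ, C = max 1 (κ ^ x0 * (2 * x0) * Real.log x0 ^ U) := ⟨_, rfl⟩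
  have hC1 : 1 ≤ C := by rw [hC]; exact le_max_left _ _
  have hC2 : κ ^ x0 * (2 * x0) * Real.log x0 ^ U ≤ C := by rw [hC]; exact le_max_right _ _
  refine ⟨B, C, fun N hN => ?_⟩
  have hN3 : (3 : ℝ) ≤ N := by exact_mod_cast hN
  have hNpos : (0 : ℝ) < N := by linarith
  have hlog := log_ge_one hN
  have hlog0 : 0 < Real.log N := by linarith
  have hNU : 0 < (N : ℝ) / Real.log N ^ U := by positivity
  -- pointwise trivial bound
  have hpt : ∀ d : ℕ, 1 ≤ d → d ≤ N → ∀ l : (ZMod d)ˣ, EMax N d l ≤ 2 * N := by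
    intro d hd hdN l
    have : NeZero d := ⟨by omega⟩
    rw [EMax_eq]
    refine (errMax_triv N d _ (by omega) hd hdN).trans ?_
    have hφ : (1 : ℝ) ≤ Nat.totient d := by exact_mod_cast Nat.totient_pos.mpr (by omega)
    exact div_le_self (by positivity) hφ
  have hsmall : N < x0 → κ ^ N * (2 * N) * N ≤ C * (N / Real.log N ^ U) := by
    intro hlt
    have hle : (N : ℝ) ≤ x0 := by exact_mod_cast hlt.le
    have hl : Real.log N ≤ Real.log x0 := Real.log_le_log hNpos hle
    have h5 : κ ^ N * (2 * N) * Real.log N ^ U ≤ C := by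
      refine le_trans ?_ hC2
      have : κ ^ N ≤ κ ^ x0 := pow_le_pow_right₀ hκ hlt.le
      gcongr
    calc κ ^ N * (2 * N) * N = (κ ^ N * (2 * N) * Real.log N ^ U) * (N / Real.log N ^ U) := by
          field_simp
      _ ≤ C * (N / Real.log N ^ U) := mul_le_mul_of_nonneg_right h5 hNU.le
  constructor
  · rcases lt_or_ge N x0 with hlt | hge
    · refine ⟨fun d => ∅, fun d hd => ?_, ?_⟩
      · simp only [card_empty, Nat.cast_zero]
        positivity
      · refine le_trans ?_ (hsmall hlt)
        calc ∑ d ∈ Icc 1 N, κ ^ nuD d * EOff N d ∅ ≤ ∑ d ∈ Icc 1 N, κ ^ N * (2 * (N : ℝ)) := by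
              apply sum_le_sum
              intro d hd
              rw [mem_Icc] at hd
              have h6 : EOff N d ∅ ≤ 2 * N := by
                unfold EOff
                exact Real.iSup_le (fun l => hpt d hd.1 hd.2 l) (by positivity)
              have h7 : κ ^ nuD d ≤ κ ^ N := pow_le_pow_right₀ hκ (nuD_le d N hd.2)
              calc κ ^ nuD d * EOff N d ∅ ≤ κ ^ nuD d * (2 * N) :=
                    mul_le_mul_of_nonneg_left h6 (by positivity)
                _ ≤ κ ^ N * (2 * N) := mul_le_mul_of_nonneg_right h7 (by positivity)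
          _ = κ ^ N * (2 * N) * N := by
              rw [sum_const, Nat.card_Icc, nsmul_eq_mul]
              simp only [Nat.add_sub_cancel]
              ring
    · have hx2 : x2 ≤ N := by
        refine le_trans ?_ hge
        rw [hx0]
        exact (le_max_right _ _).trans (le_max_left _ _)
      have hN8 : 8 ≤ N := by
        refine le_trans ?_ hge
        rw [hx0]
        exact le_max_right _ _
      obtain ⟨E, M, hE, hM, hM0, hsum⟩ := h2 N hx2
      classical
      refine ⟨fun d => if h : d = 0 then ∅ else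
        haveI : NeZero d := ⟨h⟩; univ.filter (fun a : (ZMod d)ˣ => (a : ZMod d).val ∈ E d), ?_, ?_⟩
      · intro d hd
        beta_reduce
        rw [dif_neg (by omega)]
        have hNe : NeZero d := ⟨by omega⟩
        have hc : ((univ.filter (fun a : (ZMod d)ˣ => (a : ZMod d).val ∈ E d)).card : ℝ) ≤
            ((E d).card : ℝ) := by
          have : (univ.filter (fun a : (ZMod d)ˣ => (a : ZMod d).val ∈ E d)).card ≤ (E d).card := by
            apply card_le_card_of_injOn (fun a : (ZMod d)ˣ => (a : ZMod d).val)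
            · intro a ha
              simpa using ha
            · intro a _ b _ hab
              exact Units.ext (ZMod.val_injective d hab)
          exact_mod_cast this
        refine hc.trans ((hE d hd).trans ?_)
        have hBB : Real.log N ^ B2 ≤ Real.log N ^ B :=
          pow_le_pow_right₀ hlog (by rw [hB]; exact le_max_right _ _)
        calc Real.log N ^ B2 * (d : ℝ) ^ 2 / N ≤ Real.log N ^ B * (d : ℝ) ^ 2 / N := by gcongr
          _ = _ := by ring
      · have hle : ∀ d ∈ Icc 1 N, κ ^ nuD d * EOff N d (if h : d = 0 then ∅ else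
            haveI : NeZero d := ⟨h⟩;
              univ.filter (fun a : (ZMod d)ˣ => (a : ZMod d).val ∈ E d)) ≤
            κ ^ d.primeFactors.card * min (M d) (2 * N / (Nat.totient d : ℝ)) := by
          intro d hd
          rw [mem_Icc] at hd
          have hNe : NeZero d := ⟨by omega⟩
          apply mul_le_mul_of_nonneg_left _ (by positivity)
          unfold EOff
          apply Real.iSup_le _ (le_min (hM0 d) (by positivity))
          rintro ⟨a, ha⟩
          rw [dif_neg (by omega)] at ha
          simp only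
          rw [EMax_eq]
          apply le_min
          · apply hM d _ hd.1 (ZMod.val_lt _) (ZMod.val_coe_unit_coprime a)
            intro h
            exact ha (by simpa using h)
          · exact errMax_triv N d _ (by omega) hd.1 hd.2
        refine (sum_le_sum hle).trans ?_
        have hfin := hW N hN8 (Icc 1 N) (fun d => d)
          (fun d => min (M d) (2 * N / (Nat.totient d : ℝ))) 1 zero_le_one
          (fun d _ => ⟨le_min (hM0 d) (by positivity), min_le_right _ _⟩)
          (by rw [one_mul]; exact hc N hN8)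
          (by
            rw [one_mul]
            exact (sum_le_sum fun d _ => min_le_left _ _).trans hsum)
        rw [one_mul] at hfin
        refine hfin.trans ?_
        calc (N : ℝ) / Real.log N ^ U = 1 * (N / Real.log N ^ U) := (one_mul _).symm
          _ ≤ C * (N / Real.log N ^ U) := mul_le_mul_of_nonneg_right hC1 hNU.le
  · intro A hA D hD1 hD2 L hL
    have hA0 : 0 ≤ A := by linarith
    have hDN' : (D : ℝ) ≤ N := hD1.trans (div_le_self hNpos.le (one_le_pow₀ hlog))
    have hDN : D ≤ N := by exact_mod_cast hDN'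
    rcases lt_or_ge N x0 with hlt | hge
    · calc ∑ d ∈ Icc 1 D, κ ^ nuD d * ∑ l ∈ L d, EMax N d l ≤
            ∑ d ∈ Icc 1 D, κ ^ N * (A * (2 * N)) := by
            apply sum_le_sum
            intro d hd
            rw [mem_Icc] at hd
            have h6 : ∑ l ∈ L d, EMax N d l ≤ A * (2 * N) := by
              calc ∑ l ∈ L d, EMax N d l ≤ ∑ l ∈ L d, 2 * (N : ℝ) :=
                    sum_le_sum fun l _ => hpt d hd.1 (by omega) l
                _ = ((L d).card : ℝ) * (2 * N) := by rw [sum_const, nsmul_eq_mul]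
                _ ≤ A * (2 * N) := mul_le_mul_of_nonneg_right (hL d) (by positivity)
            have h7 : κ ^ nuD d ≤ κ ^ N := pow_le_pow_right₀ hκ (nuD_le d N (by omega))
            calc κ ^ nuD d * ∑ l ∈ L d, EMax N d l ≤ κ ^ nuD d * (A * (2 * N)) :=
                  mul_le_mul_of_nonneg_left h6 (by positivity)
              _ ≤ κ ^ N * (A * (2 * N)) := mul_le_mul_of_nonneg_right h7 (by positivity)
        _ = (D : ℝ) * (κ ^ N * (A * (2 * N))) := by
            rw [sum_const, Nat.card_Icc, nsmul_eq_mul]; simp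
        _ ≤ (N : ℝ) * (κ ^ N * (A * (2 * N))) := by gcongr
        _ = A * (κ ^ N * (2 * N) * N) := by ring
        _ ≤ A * (C * (N / Real.log N ^ U)) := mul_le_mul_of_nonneg_left (hsmall hlt) hA0
        _ = C * (A * N / Real.log N ^ U) := by ring
    · have hx1 : x1 ≤ N := by
        refine le_trans ?_ hge
        rw [hx0]
        exact (le_max_left _ _).trans (le_max_left _ _)
      have hN8 : 8 ≤ N := by
        refine le_trans ?_ hge
        rw [hx0]
        exact le_max_right _ _
      have hBB : Real.log N ^ B1 ≤ Real.log N ^ B :=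
        pow_le_pow_right₀ hlog (by rw [hB]; exact le_max_left _ _)
      have hD1' : (D : ℝ) ≤ N / Real.log N ^ B1 := hD1.trans (by gcongr)
      have hD2' : (D : ℝ) ^ 2 ≤ A * N / Real.log N ^ B1 := hD2.trans (by gcongr)
      have hfam := fam_of A hA0 L hL
      have h := h1 N hx1 A hA D hD1' hD2' _ hfam
      set L' : ℕ → Finset ℕ := fun q => if q = 0 then ∅ else
        (L q).image (fun a : (ZMod q)ˣ => (a : ZMod q).val) with hL'
      have hfin := hW N hN8 ((Icc 1 D).sigma L') (fun i => i.1)
        (fun i => errMax N i.1 i.2) A hA0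
        (fun i hi => by
          rw [mem_sigma, mem_Icc] at hi
          exact ⟨errMax_nonneg _ _ _, errMax_triv N i.1 i.2 (by omega) hi.1.1 (by omega)⟩)
        (by
          refine (fam_sum A L' hfam D N hDN
            (fun d => (κ ^ 2) ^ d.primeFactors.card / (Nat.totient d : ℝ))
            (fun d => by positivity)).trans ?_
          exact mul_le_mul_of_nonneg_left (hc N hN8) hA0)
        (by rw [sum_sigma]; exact h)
      rw [sum_sigma] at hfin
      have e : ∑ d ∈ Icc 1 D, κ ^ nuD d * ∑ l ∈ L d, EMax N d l =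
          ∑ d ∈ Icc 1 D, ∑ a ∈ L' d, κ ^ d.primeFactors.card * errMax N d a := by
        apply sum_congr rfl
        intro q hq
        rw [mem_Icc] at hq
        have hNe : NeZero q := ⟨by omega⟩
        rw [mul_sum]
        simp only [hL']
        rw [if_neg (by omega), sum_image]
        · exact sum_congr rfl fun a _ => by rw [EMax_eq]; rfl
        · intro a _ b _ hab
          exact Units.ext (ZMod.val_injective q hab)
      rw [e]
      refine hfin.trans ?_
      have : 0 ≤ A * N / Real.log N ^ U := by positivity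
      calc A * N / Real.log N ^ U = 1 * (A * N / Real.log N ^ U) := (one_mul _).symm
        _ ≤ C * (A * N / Real.log N ^ U) := mul_le_mul_of_nonneg_right hC1 this

end Pool.Agent.Results.MP_188a10_nt.WeightedExceptional
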