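import Pool.Agent.H442R2.KF.AsmC

/-!
The weighted level of distribution sum at every level `θ < 14/27`, with the maximum over `y ≤ N`,
for every fixed residue `a ≤ N` outside a set of at most `C (log N)^B` exceptions.
-/

set_option autoImplicit false

namespace Pool.Agent.Results.MP_188a10_nt.WeightedFewExceptional

open Finset

/-- `π(y; d, a)`: the number of primes `p ≤ y` with `p ≡ a (mod d)` -/
noncomputable def primesAP (y : ℝ) (d a : ℕ) : ℕ :=
  ((Icc 1 ⌊y⌋₊).filter (fun p => p.Prime ∧ p ≡ a [MOD d])).card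

/-- `li(y) = ∫_2^y dt / log t` -/
noncomputable def li (y : ℝ) : ℝ := ∫ t in (2 : ℝ)..y, 1 / Real.log t

/-- the maximum over real `y`, `2 ≤ y ≤ N`, of `|π(y; d, a) - li(y)/φ(d)|` -/
noncomputable def EMax (N d a : ℕ) : ℝ :=
  ⨆ y : Set.Icc (2 : ℝ) N, |(primesAP y d a : ℝ) - li y / (Nat.totient d : ℝ)|

/-- `ν(d)`: the number of distinct prime factors of `d` -/
def nuD (d : ℕ) : ℕ := d.primeFactors.card

/-- **Weighted level of distribution `14/27` for all but `(log N)^B` residues.** For all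
`κ ≥ 1`, `θ < 14/27` and `U` there are `B`, `C` such that for all `N ≥ 3`, all but at most
`C (log N)^B` of the integers `1 ≤ a ≤ N` satisfy `∑_{d ≤ N^θ, (d,a)=1}
κ^ν(d) max_{2 ≤ y ≤ N} |π(y; d, a) - li(y)/φ(d)| ≤ N / (log N)^U`. -/
theorem result (κ : ℝ) (hκ : 1 ≤ κ) (θ : ℝ) (hθ : θ < 14 / 27) (U : ℕ) :
    ∃ (B : ℕ) (C : ℝ), 0 < C ∧ ∀ N : ℕ, 3 ≤ N →
    (((Icc 1 N).filter (fun a : ℕ => (N : ℝ) / Real.log N ^ U <
      ∑ d ∈ (Icc 1 ⌊(N : ℝ) ^ θ⌋₊).filter (fun d => Nat.Coprime a d),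
        κ ^ nuD d * EMax N d a)).card : ℝ) ≤ C * Real.log N ^ B :=
  Pool.Agent.H442R2.KF.weighted κ hκ θ hθ U

end Pool.Agent.Results.MP_188a10_nt.WeightedFewExceptional
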